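import Pool.Agent.UMG.StmtsB

/-!
# Row BRN of UMG, block B (helper66)
-/

set_option autoImplicit false

namespace Pool.Agent.UMG.B.H66

open Finset Pool.Agent.UMG Pool.Agent.UMG.B

/-- **BRN** -/
theorem brn : BrnStmt := by
  intro G X _ _ _ x
  classical
  have : Fintype G := Fintype.ofFinite G
  have hO : Finite (MulAction.orbit G x) := Set.finite_range _
  have h1 : ∀ g : G, Nat.card {y : X // y ∈ MulAction.orbit G x ∧ g • y = y} =
      Nat.card (MulAction.fixedBy (MulAction.orbit G x) g) := by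
    intro g
    exact Nat.card_congr ⟨fun y => ⟨⟨y.1, y.2.1⟩, Subtype.ext y.2.2⟩,
      fun y => ⟨y.1.1, y.1.2, congrArg Subtype.val y.2⟩, fun _ => rfl, fun _ => rfl⟩
  rw [finsum_eq_sum_of_fintype]
  simp only [h1]
  have hs : Subsingleton (MulAction.orbitRel.Quotient G (MulAction.orbit G x)) :=
    (MulAction.pretransitive_iff_subsingleton_quotient G (MulAction.orbit G x)).1 inferInstance
  have hn : Nonempty (MulAction.orbitRel.Quotient G (MulAction.orbit G x)) :=
    ⟨Quotient.mk'' ⟨x, MulAction.mem_orbit_self x⟩⟩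
  have h2 : Nat.card (MulAction.orbitRel.Quotient G (MulAction.orbit G x)) = 1 :=
    Nat.card_eq_one_iff_unique.2 ⟨hs, hn⟩
  have h3 := Nat.card_congr (MulAction.sigmaFixedByEquivOrbitsProdGroup G (MulAction.orbit G x))
  rw [Nat.card_prod, Nat.card_sigma] at h3
  rw [h3]
  exact (congrArg (· * Nat.card G) h2).trans (one_mul _)

end Pool.Agent.UMG.B.H66
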