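import Pool.Agent.UMG.CStmts

/-!
# Row UAC of UMG, block C (helper66)
-/

set_option autoImplicit false

namespace Pool.Agent.UMG.C.H66

open Finset Pool.Agent.UMG Pool.Agent.UMG.C

theorem pick_uidx (m : ℕ) (w : ℕ → ℕ) (u : ℕ) : pick m w u = uidx w m u := by
  unfold pick uidx
  rw [Finset.card_filter]

theorem sum_wA (x : ℕ → ℕ) (d : List ℕ) (s : ℕ × ℕ × ℕ) (h : s.1 < d.length) :
    ∑ i ∈ range ((d.drop (s.1 + 1)).count (d.getD s.1 0) + 1), wA x d s i =
      s.2.1 * Aint x (d.drop s.1) := by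
  rw [drop_eq_cons h, Aint_cons, mul_sum]
  refine sum_congr rfl fun i _ => ?_
  unfold wA vA
  ring

/-- **UAC** -/
theorem uac : UacStmt := by
  intro x d s hs h
  have hu : s.2.2 < ∑ i ∈ range ((d.drop (s.1 + 1)).count (d.getD s.1 0) + 1), wA x d s i := by
    rw [sum_wA x d s h]
    exact hs.2
  obtain ⟨h1, h2, h3⟩ := uidx_spec hu
  have hi : iA x d s = uidx (wA x d s) ((d.drop (s.1 + 1)).count (d.getD s.1 0) + 1) s.2.2 :=
    pick_uidx _ _ _
  rw [← hi] at h1 h2 h3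
  refine ⟨by omega, ?_⟩
  have h4 : 0 < vA x (d.getD s.1 0) (d.drop (s.1 + 1)) s.2.1 (iA x d s) := by
    have h5 : 0 < wA x d s (iA x d s) := lt_of_le_of_lt (Nat.zero_le _) h2
    unfold wA at h5
    exact Nat.pos_of_ne_zero fun h6 => by
      rw [h6, Nat.mul_zero] at h5
      exact lt_irrefl 0 h5
  have h7 : s.2.1 * (Eint x (iA x d s + 1) (d.getD s.1 0) *
      Aint x (d.drop (s.1 + 1 + iA x d s))) =
      vA x (d.getD s.1 0) (d.drop (s.1 + 1)) s.2.1 (iA x d s) := by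
    unfold vA
    rw [List.drop_drop]
  rw [h7]
  unfold uA
  exact Nat.mod_lt _ h4

end Pool.Agent.UMG.C.H66
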