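import Pool.Agent.UMG.StmtsD

/-!
# Row COE of UMG, block D (helper66)
-/

set_option autoImplicit false

namespace Pool.Agent.UMG.D.H66

open Finset Pool.Agent.UMG

theorem bn_pos (M j i : ℕ) : 0 < Bn M j i := by
  unfold Bn
  omega

theorem split (M j b : ℕ) (hb : b ≤ M) :
    WW M j = Bn M j (b + 1) ^ b * ∏ b' ∈ range (M + 1), if b' = b then 1 else Bn M j (b' + 1) ^ b' := by
  have hm : b ∈ range (M + 1) := mem_range.2 (by omega)
  have h1 : WW M j = Bn M j (b + 1) ^ b * ∏ b' ∈ (range (M + 1)).erase b, Bn M j (b' + 1) ^ b' :=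
    (mul_prod_erase (range (M + 1)) (fun b' => Bn M j (b' + 1) ^ b') hm).symm
  have h2 : ∏ b' ∈ range (M + 1), (if b' = b then 1 else Bn M j (b' + 1) ^ b') =
      ∏ b' ∈ (range (M + 1)).erase b, Bn M j (b' + 1) ^ b' := by
    rw [← mul_prod_erase (range (M + 1))
      (fun b' => if b' = b then 1 else Bn M j (b' + 1) ^ b') hm]
    rw [if_pos rfl, one_mul]
    exact prod_congr rfl fun x hx => if_neg (ne_of_mem_erase hx)
  rw [h1, h2]

/-- **COE** -/
theorem coe : CoeStmt := by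
  intro M j b hb
  have hQ : (0 : ℝ) < 2 * ((M : ℝ) + 1) := by positivity
  have hB : (0 : ℝ) < (Bn M j (b + 1) : ℝ) := by exact_mod_cast bn_pos M j (b + 1)
  have h1 : Fh M j b = (∏ i ∈ range b, (Bn M j (i + 1) : ℝ)) / (2 * ((M : ℝ) + 1)) ^ b := by
    unfold Fh sq
    rw [prod_div_distrib, prod_const, card_range]
  have h2 : ct M j b = (∏ i ∈ range b, (Bn M j (i + 1) : ℝ)) / (Bn M j (b + 1) : ℝ) ^ b := by
    unfold ct
    rw [h1]
    unfold sq
    rw [div_pow]
    field_simp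
  rw [h2, split M j b hb]
  unfold coef
  push_cast
  field_simp

end Pool.Agent.UMG.D.H66
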